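import Pool.Agent.H22.CA.Mono

/-! Rows BES and GCT of the board `cma_modules`. -/

set_option autoImplicit false

open scoped ComplexConjugate

namespace Pool.Agent.H22.CA

open Pool.Agent.H28.RC Pool.Agent.H37.CA

theorem irr_class {G : Type} [Group G] [Finite G] {f : G → ℂ} (hf : f ∈ Irr G) (g x : G) :
    f (g * x * g⁻¹) = f x := by
  obtain ⟨V, i1, i2, i3, ρ, hρ, rfl⟩ := hf
  exact Representation.char_conj ρ x g

theorem card_filter_inst {α : Type*} (s : Finset α) (p : α → Prop) (i j : DecidablePred p) :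
    (@Finset.filter α p i s).card = (@Finset.filter α p j s).card := by
  have h : i = j := Subsingleton.elim _ _
  rw [h]

open Classical in
theorem bessel {G : Type} [Group G] [Finite G] (A : Subgroup G) [A.Normal] [Fintype (G ⧸ A)]
    (φ : A →* ℂˣ) (T : Finset (G → ℂ)) (hT : ∀ f ∈ T, f ∈ Irr G) :
    ∑ f ∈ T, ‖mlt A φ f‖ ^ 2 ≤
      ((Finset.univ.filter fun x : G ⧸ A => cx A x.out φ = φ).card : ℝ) := by
  have := Fintype.ofFinite G
  have hN : (0 : ℝ) < (Nat.card G : ℝ) := by exact_mod_cast (Nat.card_pos (α := G))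
  set N : ℝ := (Nat.card G : ℝ) with hNdef
  have hNC : ((N : ℝ) : ℂ) = (Nat.card G : ℂ) := by rw [hNdef]; push_cast; rfl
  set c : ℂ := (((Real.sqrt N)⁻¹ : ℝ) : ℂ) with hc
  have hc2 : ‖c‖ ^ 2 = N⁻¹ := by
    rw [hc, Complex.norm_real, Real.norm_eq_abs, sq_abs, inv_pow, Real.sq_sqrt hN.le]
  have hcc : conj c * c = ((N⁻¹ : ℝ) : ℂ) := by
    rw [mul_comm, Complex.mul_conj, Complex.normSq_eq_norm_sq, hc2]
  set v : T → EuclideanSpace ℂ G := fun f => c • WithLp.toLp 2 f.1 with hv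
  have hinner : ∀ f f' : G → ℂ, inner ℂ (WithLp.toLp 2 f : EuclideanSpace ℂ G) (WithLp.toLp 2 f') =
      ∑ g, f' g * conj (f g) := by
    intro f f'
    rw [PiLp.inner_apply]
    refine Finset.sum_congr rfl fun g _ => ?_
    simp
  have hon : Orthonormal ℂ v := by
    rw [orthonormal_iff_ite]
    intro f f'
    rw [hv]
    simp only
    rw [inner_smul_left, inner_smul_right, hinner,
      AMc.t_A1 G f'.1 f.1 (irr_am (hT _ f'.2)) (irr_am (hT _ f.2)), ← mul_assoc, hcc]
    by_cases h : f = f'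
    · subst h
      rw [if_pos rfl, if_pos rfl, ← hNC, ← Complex.ofReal_mul, inv_mul_cancel₀ hN.ne',
        Complex.ofReal_one]
    · rw [if_neg (fun h' => h (Subtype.ext h'.symm)), if_neg h, mul_zero]
  have hB := hon.sum_inner_products_le (s := Finset.univ)
    (WithLp.toLp 2 (indc A φ) : EuclideanSpace ℂ G)
  have hl : ∀ f : T, ‖inner ℂ (v f) (WithLp.toLp 2 (indc A φ) : EuclideanSpace ℂ G)‖ ^ 2 =
      N * ‖mlt A φ f.1‖ ^ 2 := by
    intro f
    rw [hv]
    simp only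
    rw [inner_smul_left, hinner]
    have h1 : ∑ g, indc A φ g * conj (f.1 g) = conj ((Nat.card G : ℂ) * mlt A φ f.1) := by
      rw [← inner_indc A φ f.1 (irr_class (hT _ f.2)), map_sum]
      refine Finset.sum_congr rfl fun g _ => ?_
      rw [map_mul, Complex.conj_conj, mul_comm]
    rw [h1, norm_mul, mul_pow, RCLike.norm_conj, RCLike.norm_conj, hc2, norm_mul, mul_pow, ← hNC,
      Complex.norm_real, Real.norm_eq_abs, sq_abs]
    field_simp
  have hr : ‖(WithLp.toLp 2 (indc A φ) : EuclideanSpace ℂ G)‖ ^ 2 =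
      N * ((Finset.univ.filter fun x : G ⧸ A => cx A x.out φ = φ).card : ℝ) := by
    have h1 := hinner (indc A φ) (indc A φ)
    rw [inner_indc A φ (indc A φ) (indc_conj A φ), mlt_indc, ← hNC,
      inner_self_eq_norm_sq_to_K] at h1
    have h2 : ((‖(WithLp.toLp 2 (indc A φ) : EuclideanSpace ℂ G)‖ ^ 2 : ℝ) : ℂ) =
        ((N * ((Finset.univ.filter fun x : G ⧸ A => cx A x.out φ = φ).card : ℝ) : ℝ) : ℂ) := by
      rw [Complex.ofReal_mul, Complex.ofReal_pow, Complex.ofReal_natCast]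
      refine Eq.trans ?_ (h1.trans ?_)
      · rfl
      · rw [hNC]
        exact congrArg (fun n : ℕ => (Nat.card G : ℂ) * ((n : ℝ) : ℂ)) (card_filter_inst _ _ _ _)
    exact_mod_cast h2
  rw [Finset.sum_congr rfl fun f _ => hl f, hr, ← Finset.mul_sum] at hB
  have h3 := le_of_mul_le_mul_left hB hN
  rw [← Finset.sum_coe_sort T (fun f => ‖mlt A φ f‖ ^ 2)]
  refine le_trans (le_of_eq ?_) (h3.trans (le_of_eq ?_))
  · rfl
  · exact congrArg (fun n : ℕ => (n : ℝ)) (card_filter_inst _ _ _ _)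

theorem pf_BES : T_BES := by
  classical
  intro G _ _ A _ hA φ T hT
  have := Fintype.ofFinite (G ⧸ A)
  have h1 := bessel A φ T hT
  refine ⟨h1.trans ?_, fun hφ => h1.trans ?_⟩
  · have h2 : (Finset.univ.filter fun x : G ⧸ A => cx A x.out φ = φ).card ≤ A.index := by
      refine (Finset.card_filter_le _ _).trans ?_
      rw [Finset.card_univ, Subgroup.index, Nat.card_eq_fintype_card]
    exact_mod_cast h2
  · rw [fix_card A hA hφ]
    simp

theorem finite_of_card {α : Type*} (s : Set α) (n : ℕ) (h : ∀ T : Finset α, ↑T ⊆ s → T.card ≤ n) :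
    s.Finite ∧ s.ncard ≤ n := by
  have hf : s.Finite := by
    by_contra hinf
    obtain ⟨t, ht, hc⟩ := Set.Infinite.exists_subset_card_eq hinf (n + 1)
    have := h t ht
    omega
  refine ⟨hf, ?_⟩
  obtain ⟨t, rfl⟩ := hf.exists_finset_coe
  rw [Set.ncard_coe_finset]
  exact h t (le_refl _)

theorem pf_GCT (hMUL : T_MUL) (hBES : T_BES) : T_GCT := by
  classical
  intro G _ _ A _ hA
  have := Fintype.ofFinite (G ⧸ A)
  have hM := hMUL G A hA
  have hB := hBES G A hA
  have : Finite (A →* ℂˣ) := by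
    have h1 : Function.Injective (fun (φ : A →* ℂˣ) (a : A) =>
        (⟨((φ a : ℂˣ) : ℂ), by
          have h2 : ((φ a : ℂˣ) : ℂ) ^ (Nat.card A) = 1 := by
            rw [← Units.val_pow_eq_pow_val, ← map_pow, pow_card_eq_one', map_one, Units.val_one]
          exact (Polynomial.mem_nthRootsFinset (Nat.card_pos (α := A)) _).2 h2⟩ :
          Polynomial.nthRootsFinset (Nat.card A) (1 : ℂ))) := by
      intro φ φ' h
      ext a
      have h2 := congrFun h a
      simpa using congrArg Subtype.val h2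
    exact Finite.of_injective _ h1
  have := Fintype.ofFinite (A →* ℂˣ)
  -- norms of the multiplicities
  have hge : ∀ (φ : A →* ℂˣ) (f : G → ℂ), f ∈ Irr G → mlt A φ f ≠ 0 → 1 ≤ ‖mlt A φ f‖ ^ 2 := by
    intro φ f hf h0
    obtain ⟨n, hn⟩ := (hM f hf).1 φ
    rw [hn] at h0 ⊢
    have h1 : 1 ≤ n := by
      rcases Nat.eq_zero_or_pos n with rfl | h
      · simp at h0
      · exact h
    have h2 : (1 : ℝ) ≤ n := by exact_mod_cast h1
    rw [Complex.norm_natCast]
    nlinarith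
  have hcard : ∀ (φ : A →* ℂˣ) (T : Finset (G → ℂ)),
      ↑T ⊆ {f | f ∈ Irr G ∧ mlt A φ f ≠ 0} → (T.card : ℝ) ≤ ∑ f ∈ T, ‖mlt A φ f‖ ^ 2 := by
    intro φ T hT
    have h1 : ∑ f ∈ T, (1 : ℝ) ≤ ∑ f ∈ T, ‖mlt A φ f‖ ^ 2 :=
      Finset.sum_le_sum fun f hf => hge φ f (hT hf).1 (hT hf).2
    simpa using h1
  have hX : ∀ φ : A →* ℂˣ, {f | f ∈ Irr G ∧ mlt A φ f ≠ 0}.Finite ∧
      {f | f ∈ Irr G ∧ mlt A φ f ≠ 0}.ncard ≤ A.index := by
    intro φ
    refine finite_of_card _ _ fun T hT => ?_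
    have h1 := (hcard φ T hT).trans (hB φ T fun f hf => (hT hf).1).1
    exact_mod_cast h1
  have hX1 : ∀ φ ∈ Gen A, {f | f ∈ Irr G ∧ mlt A φ f ≠ 0}.ncard ≤ 1 := by
    intro φ hφ
    refine (finite_of_card _ _ fun T hT => ?_).2
    have h1 := (hcard φ T hT).trans ((hB φ T fun f hf => (hT hf).1).2 hφ)
    exact_mod_cast h1
  have hfin : (Irr G).Finite := by
    refine (Set.finite_iUnion fun φ => (hX φ).1).subset fun f hf => ?_
    obtain ⟨φ, hφ⟩ := (hM f hf).2.1
    exact Set.mem_iUnion.2 ⟨φ, hf, hφ⟩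
  refine ⟨hfin, ?_⟩
  obtain ⟨I, hI⟩ := hfin.exists_finset_coe
  have hmI : ∀ f, f ∈ I ↔ f ∈ Irr G := fun f => by rw [← hI]; rfl
  set Gf : Finset (A →* ℂˣ) := Finset.univ.filter (fun φ => φ ∈ Gen A) with hGf
  set Bf : Finset (A →* ℂˣ) := Finset.univ.filter (fun φ => φ ∉ Gen A) with hBf
  have hGn : (Gen A).ncard = Gf.card := by
    rw [← Set.ncard_coe_finset, hGf]
    congr 1
    ext φ
    simp
  have hBn : ((Gen A)ᶜ).ncard = Bf.card := by
    rw [← Set.ncard_coe_finset, hBf]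
    congr 1
    ext φ
    simp
  rw [hGn, hBn, ← hI, Set.ncard_coe_finset]
  -- the characters over a general `φ`
  set Y : Finset (G → ℂ) := I.filter (fun f => ∃ φ ∈ Gf, mlt A φ f ≠ 0) with hY
  set X : (A →* ℂˣ) → Finset (G → ℂ) := fun φ => I.filter (fun f => mlt A φ f ≠ 0) with hXdef
  have hXn : ∀ φ, (X φ).card = {f | f ∈ Irr G ∧ mlt A φ f ≠ 0}.ncard := by
    intro φ
    rw [← Set.ncard_coe_finset, hXdef]
    congr 1
    ext f
    simp [hmI]
  have hcover : I ⊆ Y ∪ Bf.biUnion X := by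
    intro f hf
    obtain ⟨φ, hφ⟩ := (hM f ((hmI f).1 hf)).2.1
    by_cases hg : φ ∈ Gen A
    · exact Finset.mem_union_left _ (Finset.mem_filter.2 ⟨hf, φ,
        Finset.mem_filter.2 ⟨Finset.mem_univ _, hg⟩, hφ⟩)
    · exact Finset.mem_union_right _ (Finset.mem_biUnion.2 ⟨φ,
        Finset.mem_filter.2 ⟨Finset.mem_univ _, hg⟩, Finset.mem_filter.2 ⟨hf, hφ⟩⟩)
  have h1 : I.card ≤ Y.card + Bf.card * A.index := by
    refine (Finset.card_le_card hcover).trans ((Finset.card_union_le _ _).trans ?_)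
    refine Nat.add_le_add_left ?_ _
    refine Finset.card_biUnion_le.trans ?_
    refine (Finset.sum_le_card_nsmul _ _ A.index fun φ _ => ?_).trans (le_of_eq ?_)
    · rw [hXn]
      exact (hX φ).2
    · rw [smul_eq_mul]
  -- double counting
  have h2 : A.index * Y.card ≤ Gf.card := by
    have h3 : ∀ f ∈ Y, A.index ≤ (Gf.filter fun φ => mlt A φ f ≠ 0).card := by
      intro f hf
      obtain ⟨hfI, φ, hφ, hne⟩ := Finset.mem_filter.1 hf
      have hφG : φ ∈ Gen A := (Finset.mem_filter.1 hφ).2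
      have hfIrr := (hmI f).1 hfI
      have h4 : A.index = (Finset.univ : Finset (G ⧸ A)).card := by
        rw [Finset.card_univ, Subgroup.index, Nat.card_eq_fintype_card]
      rw [h4]
      refine Finset.card_le_card_of_injOn (fun x => cx A x.out φ) ?_ ?_
      · intro x _
        refine Finset.mem_coe.2 (Finset.mem_filter.2
          ⟨Finset.mem_filter.2 ⟨Finset.mem_univ _, cx_gen A hφG _⟩, ?_⟩)
        rw [mlt_cx A φ f (irr_class hfIrr)]
        exact hne
      · intro x _ y _ hxy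
        have h5 := cx_inj hφG hxy
        rw [← QuotientGroup.out_eq' x, ← QuotientGroup.out_eq' y, eq_comm, QuotientGroup.eq]
        exact h5
    have h4 : ∀ φ ∈ Gf, (Y.filter fun f => mlt A φ f ≠ 0).card ≤ 1 := by
      intro φ hφ
      refine le_trans (Finset.card_le_card ?_) (((hXn φ).le).trans
        (hX1 φ (Finset.mem_filter.1 hφ).2))
      intro f hf
      obtain ⟨hfY, hne⟩ := Finset.mem_filter.1 hf
      exact Finset.mem_filter.2 ⟨(Finset.mem_filter.1 hfY).1, hne⟩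
    have h5 := Finset.sum_card_bipartiteAbove_eq_sum_card_bipartiteBelow
      (fun (f : G → ℂ) (φ : A →* ℂˣ) => mlt A φ f ≠ 0) (s := Y) (t := Gf)
    calc A.index * Y.card = ∑ f ∈ Y, A.index := by rw [Finset.sum_const, smul_eq_mul, mul_comm]
      _ ≤ ∑ f ∈ Y, (Gf.filter fun φ => mlt A φ f ≠ 0).card := Finset.sum_le_sum h3
      _ = ∑ φ ∈ Gf, (Y.filter fun f => mlt A φ f ≠ 0).card := h5
      _ ≤ ∑ φ ∈ Gf, 1 := Finset.sum_le_sum h4
      _ = Gf.card := by simp
  calc A.index * I.card ≤ A.index * (Y.card + Bf.card * A.index) := Nat.mul_le_mul_left _ h1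
    _ = A.index * Y.card + A.index ^ 2 * Bf.card := by ring
    _ ≤ _ := Nat.add_le_add_right h2 _

end Pool.Agent.H22.CA
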