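import Pool.Agent.H22.CA.Base

/-! The induced representation as a monomial representation (board `cma_modules`). -/

set_option autoImplicit false

open scoped ComplexConjugate

namespace Pool.Agent.H22.CA

open Pool.Agent.H28.RC Pool.Agent.H37.CA

variable {G : Type} [Group G] (A : Subgroup G)

theorem kmem (g : G) (y : G ⧸ A) : y.out⁻¹ * g * (g⁻¹ • y).out ∈ A := by
  have h1 : ((g⁻¹ * y.out : G) : G ⧸ A) = ((g⁻¹ • y).out : G) := by
    rw [QuotientGroup.out_eq']
    conv_rhs => rw [← QuotientGroup.out_eq' y]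
    rfl
  rw [QuotientGroup.eq] at h1
  have h2 : (g⁻¹ * y.out)⁻¹ * (g⁻¹ • y).out = y.out⁻¹ * g * (g⁻¹ • y).out := by group
  rwa [h2] at h1

/-- the monomial representation -/
noncomputable def mono (φ : A →* ℂˣ) : Representation ℂ G (G ⧸ A → ℂ) where
  toFun g :=
    { toFun := fun v y => ((φ ⟨_, kmem A g y⟩ : ℂˣ) : ℂ) * v (g⁻¹ • y)
      map_add' := fun v w => by funext y; simp only [Pi.add_apply]; ring
      map_smul' := fun c v => by
        funext y
        simp only [Pi.smul_apply, smul_eq_mul, RingHom.id_apply]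
        ring }
  map_one' := by
    refine LinearMap.ext fun v => funext fun y => ?_
    simp only [LinearMap.coe_mk, AddHom.coe_mk, Module.End.one_apply]
    have h1 : (1 : G)⁻¹ • y = y := by rw [inv_one, one_smul]
    have h2 : (⟨_, kmem A 1 y⟩ : A) = 1 := by
      apply Subtype.ext
      simp only [h1, Subgroup.coe_one]
      group
    rw [h2, map_one, Units.val_one, one_mul, h1]
  map_mul' := fun g h => by
    refine LinearMap.ext fun v => funext fun y => ?_
    simp only [LinearMap.coe_mk, AddHom.coe_mk, Module.End.mul_apply]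
    have h1 : (g * h)⁻¹ • y = h⁻¹ • g⁻¹ • y := by rw [mul_inv_rev, mul_smul]
    have h2 : (⟨_, kmem A (g * h) y⟩ : A) = ⟨_, kmem A g y⟩ * ⟨_, kmem A h (g⁻¹ • y)⟩ := by
      apply Subtype.ext
      simp only [h1, Subgroup.coe_mul]
      group
    rw [h2, map_mul, Units.val_mul, h1, mul_assoc]

theorem mono_char [Finite G] (φ : A →* ℂˣ) : (mono A φ).character = indc A φ := by
  classical
  have := Fintype.ofFinite (G ⧸ A)
  funext g
  unfold Representation.character
  rw [LinearMap.trace_eq_matrix_trace ℂ (Pi.basisFun ℂ (G ⧸ A)), Matrix.trace]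
  unfold indc
  rw [finsum_eq_sum_of_fintype]
  refine Finset.sum_congr rfl fun y _ => ?_
  rw [Matrix.diag_apply, LinearMap.toMatrix_apply]
  simp only [Pi.basisFun_apply, Pi.basisFun_repr, mono, MonoidHom.coe_mk, OneHom.coe_mk,
    LinearMap.coe_mk, AddHom.coe_mk]
  have h1 : g⁻¹ • y = y ↔ y.out⁻¹ * g * y.out ∈ A := by
    have h2 : g⁻¹ • y = ((g⁻¹ * y.out : G) : G ⧸ A) := by
      conv_lhs => rw [← QuotientGroup.out_eq' y]
      rfl
    have h3 : y = ((y.out : G) : G ⧸ A) := (QuotientGroup.out_eq' y).symm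
    have h4 : (g⁻¹ * y.out)⁻¹ * y.out = y.out⁻¹ * g * y.out := by group
    rw [← h4, ← QuotientGroup.eq, ← h2, ← h3]
  by_cases hy : g⁻¹ • y = y
  · have h2 : (⟨_, kmem A g y⟩ : A) = ⟨_, h1.1 hy⟩ := by
      apply Subtype.ext
      simp only [hy]
    have h3 : (Pi.single y (1 : ℂ) : G ⧸ A → ℂ) (g⁻¹ • y) = 1 := by
      rw [hy, Pi.single_eq_same]
    rw [dif_pos (h1.1 hy), h2, h3, mul_one]
  · rw [dif_neg (fun h => hy (h1.2 h)), Pi.single_eq_of_ne hy, mul_zero]

theorem isChar_indc [Finite G] (φ : A →* ℂˣ) : AMc.IsChar G (indc A φ) := by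
  have := Fintype.ofFinite (G ⧸ A)
  rw [← mono_char]
  exact isChar_rep _

theorem indc_conj [Finite G] (φ : A →* ℂˣ) (g x : G) :
    indc A φ (g * x * g⁻¹) = indc A φ x := by
  have := Fintype.ofFinite G
  exact ((AMc.t_A3 G).2.1 _ (isChar_indc A φ)).1 g x

open Classical in
/-- the number of the representatives which map `φ` to itself -/
theorem fix_card (A : Subgroup G) [A.Normal] [Fintype (G ⧸ A)]
    (hA : ∀ a ∈ A, ∀ b ∈ A, a * b = b * a) {φ : A →* ℂˣ} (hφ : φ ∈ Gen A) :
    (Finset.univ.filter fun x : G ⧸ A => cx A x.out φ = φ).card = 1 := by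
  rw [Finset.card_eq_one]
  refine ⟨((1 : G) : G ⧸ A), ?_⟩
  ext x
  simp only [Finset.mem_filter, Finset.mem_univ, true_and, Finset.mem_singleton]
  constructor
  · intro h
    by_contra hne
    apply (mem_gen A φ).1 hφ x.out _ h
    intro hx
    apply hne
    rw [← QuotientGroup.out_eq' x, eq_comm, QuotientGroup.eq, inv_one, one_mul]
    exact hx
  · rintro rfl
    apply cx_mem hA
    have h1 : ((1 : G) : G ⧸ A) = ((((1 : G) : G ⧸ A).out : G) : G ⧸ A) :=
      (QuotientGroup.out_eq' _).symm
    rw [QuotientGroup.eq, inv_one, one_mul] at h1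
    exact h1

theorem pf_IIR : T_IIR := by
  intro G _ _ A _ hA φ hφ
  refine ⟨irr_of_norm (isChar_indc A φ) ?_, indc_one A φ⟩
  intro _
  have := Fintype.ofFinite (G ⧸ A)
  classical
  rw [inner_indc A φ (indc A φ) (indc_conj A φ), mlt_indc, fix_card A hA hφ]
  simp

theorem pf_FIB : T_FIB := by
  classical
  intro G _ _ A _ hA S
  have := Fintype.ofFinite (G ⧸ A)
  by_cases hS : S.Finite
  · obtain ⟨s, rfl⟩ := hS.exists_finset_coe
    rw [Set.ncard_coe_finset, ← Finset.coe_image, Set.ncard_coe_finset]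
    refine Finset.card_le_mul_card_image s A.index fun c hc => ?_
    obtain ⟨φ, hφ, rfl⟩ := Finset.mem_image.1 hc
    have hsub : (s.filter fun φ' => indc A φ' = indc A φ) ⊆
        Finset.univ.image (fun x : G ⧸ A => cx A x.out φ) := by
      intro φ' hφ'
      have h1 := (Finset.mem_filter.1 hφ').2
      have h2 := mlt_indc A φ' φ'
      rw [h1, mlt_indc A φ' φ] at h2
      have h3 : (Finset.univ.filter fun x : G ⧸ A => cx A x.out φ = φ').card =
          (Finset.univ.filter fun x : G ⧸ A => cx A x.out φ' = φ').card := by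
        exact_mod_cast h2
      have h4 : 0 < (Finset.univ.filter fun x : G ⧸ A => cx A x.out φ' = φ').card := by
        rw [Finset.card_pos]
        refine ⟨((1 : G) : G ⧸ A), Finset.mem_filter.2 ⟨Finset.mem_univ _, ?_⟩⟩
        apply cx_mem hA
        have h5 : ((1 : G) : G ⧸ A) = ((((1 : G) : G ⧸ A).out : G) : G ⧸ A) :=
          (QuotientGroup.out_eq' _).symm
        rw [QuotientGroup.eq, inv_one, one_mul] at h5
        exact h5
      rw [← h3, Finset.card_pos] at h4
      obtain ⟨x, hx⟩ := h4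
      exact Finset.mem_image.2 ⟨x, Finset.mem_univ _, (Finset.mem_filter.1 hx).2⟩
    refine (Finset.card_le_card hsub).trans (Finset.card_image_le.trans ?_)
    rw [Finset.card_univ, Subgroup.index, Nat.card_eq_fintype_card]
  · rw [Set.Infinite.ncard hS]
    exact Nat.zero_le _

end Pool.Agent.H22.CA
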