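import Pool.Agent.H37.CA.Targets
import Pool.Agent.H3.AM.A1

/-! Induced characters from a normal abelian subgroup: basic facts (board `cma_modules`). -/

set_option autoImplicit false
set_option linter.unusedSectionVars false

open scoped ComplexConjugate

namespace Pool.Agent.H22.CA

open Pool.Agent.H28.RC Pool.Agent.H37.CA

/-! ### the two definitions of irreducible characters -/

theorem isChar_rep {G : Type} [Group G] {V : Type} [AddCommGroup V] [Module ℂ V]
    [FiniteDimensional ℂ V] (ρ : Representation ℂ G V) : AMc.IsChar G ρ.character := by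
  set n := Module.finrank ℂ V with hn
  have e : V ≃ₗ[ℂ] (Fin n → ℂ) := LinearEquiv.ofFinrankEq V (Fin n → ℂ) (by simp [hn])
  let ρ' : Representation ℂ G (Fin n → ℂ) :=
    { toFun := fun g => e.conj (ρ g)
      map_one' := by rw [map_one]; exact LinearEquiv.conj_id e
      map_mul' := fun g h => by rw [map_mul]; exact LinearEquiv.conj_comp e (ρ h) (ρ g) }
  refine ⟨n, ρ', ?_⟩
  funext g
  exact LinearMap.trace_conj' (ρ g) e

theorem irr_of_norm {G : Type} [Group G] [Finite G] {f : G → ℂ} (hf : AMc.IsChar G f)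
    (h : ∀ [Fintype G], ∑ g, f g * conj (f g) = (Nat.card G : ℂ)) : f ∈ Irr G := by
  have := Fintype.ofFinite G
  obtain ⟨n, ρ, hρ, hc⟩ := (AMc.t_A3 G).2.2.2 f hf h
  exact ⟨Fin n → ℂ, inferInstance, inferInstance, inferInstance, ρ, hρ, hc.symm⟩

theorem irr_am {G : Type} [Group G] [Fintype G] {f : G → ℂ} (hf : f ∈ Irr G) :
    f ∈ AMc.Irr G := by
  obtain ⟨V, i1, i2, i3, ρ, hρ, rfl⟩ := hf
  have hch := isChar_rep ρ
  refine (AMc.t_A3 G).2.2.2 _ hch ?_
  have hne : (Nat.card G : ℂ) ≠ 0 := by exact_mod_cast Nat.card_pos.ne'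
  have : Invertible (Nat.card G : ℂ) := invertibleOfNonzero hne
  have h1 := Representation.char_orthonormal ρ ρ
  rw [if_pos ⟨Representation.Equiv.refl ρ⟩] at h1
  have h2 := congrArg (fun z => (Nat.card G : ℂ) * z) h1
  simp only [mul_one] at h2
  rw [← mul_assoc, mul_inv_cancel₀ hne, one_mul] at h2
  rw [← h2]
  refine Finset.sum_congr rfl fun g _ => ?_
  rw [((AMc.t_A3 G).2.1 _ hch).2.1 g]

/-! ### conjugation of characters -/

variable {G : Type} [Group G]

/-- the character `a ↦ φ (x⁻¹ a x)` -/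
def cx (A : Subgroup G) [A.Normal] (x : G) (φ : A →* ℂˣ) : A →* ℂˣ :=
  φ.comp (MulAut.conjNormal x⁻¹).toMonoidHom

variable (A : Subgroup G) [A.Normal]

theorem nmem (x : G) (a : A) : x⁻¹ * a * x ∈ A := by
  have h := Subgroup.Normal.conj_mem (inferInstance : A.Normal) (a : G) a.2 x⁻¹
  rwa [inv_inv] at h

theorem cx_apply (x : G) (φ : A →* ℂˣ) (a : A) (h : x⁻¹ * a * x ∈ A) :
    cx A x φ a = φ ⟨x⁻¹ * a * x, h⟩ := by
  unfold cx
  rw [MonoidHom.comp_apply]
  congr 1
  apply Subtype.ext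
  simp

theorem cx_mul (x y : G) (φ : A →* ℂˣ) : cx A x (cx A y φ) = cx A (x * y) φ := by
  ext a
  rw [cx_apply A x _ a (nmem A x a), cx_apply A y φ _ (nmem A y _),
    cx_apply A (x * y) φ a (nmem A (x * y) a)]
  congr 2
  apply Subtype.ext
  simp only
  group

theorem cx_one (φ : A →* ℂˣ) : cx A 1 φ = φ := by
  ext a
  rw [cx_apply A 1 _ a (nmem A 1 a)]
  congr 2
  apply Subtype.ext
  simp

variable {A} in
theorem cx_mem (hA : ∀ a ∈ A, ∀ b ∈ A, a * b = b * a) (x : G) (hx : x ∈ A) (φ : A →* ℂˣ) :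
    cx A x φ = φ := by
  ext a
  rw [cx_apply A x _ a (nmem A x a)]
  congr 2
  apply Subtype.ext
  simp only
  rw [mul_assoc, hA a a.2 x hx, inv_mul_cancel_left]

theorem mem_gen (φ : A →* ℂˣ) : φ ∈ Gen A ↔ ∀ g : G, g ∉ A → cx A g φ ≠ φ := by
  unfold Gen
  constructor
  · intro h g hg he
    obtain ⟨a, ha, hne⟩ := h g hg
    apply hne
    rw [← cx_apply A g φ a ha, he]
  · intro h g hg
    by_contra hcon
    push Not at hcon
    apply h g hg
    ext a
    rw [cx_apply A g φ a (nmem A g a), hcon a (nmem A g a)]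

theorem cx_gen {φ : A →* ℂˣ} (hφ : φ ∈ Gen A) (x : G) : cx A x φ ∈ Gen A := by
  rw [mem_gen] at hφ ⊢
  intro g hg he
  have h1 : x⁻¹ * g * x ∉ A := by
    intro h
    apply hg
    have h2 := Subgroup.Normal.conj_mem (inferInstance : A.Normal) _ h x
    have h3 : x * (x⁻¹ * g * x) * x⁻¹ = g := by group
    rwa [h3] at h2
  apply hφ _ h1
  have h2 := congrArg (cx A x⁻¹) he
  rw [cx_mul, cx_mul, cx_mul] at h2
  have h3 : x⁻¹ * x = 1 := inv_mul_cancel x
  rw [h3, cx_one] at h2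
  exact h2

variable {A} in
theorem cx_inj {φ : A →* ℂˣ} (hφ : φ ∈ Gen A) {x y : G} (h : cx A x φ = cx A y φ) :
    y⁻¹ * x ∈ A := by
  by_contra hn
  apply (mem_gen A φ).1 hφ _ hn
  have h2 := congrArg (cx A y⁻¹) h
  rw [cx_mul, cx_mul, inv_mul_cancel, cx_one] at h2
  exact h2

/-! ### the induced character -/

theorem indc_not_mem (φ : A →* ℂˣ) (g : G) (hg : g ∉ A) : indc A φ g = 0 := by
  unfold indc
  rw [finsum_eq_zero_of_forall_eq_zero]
  intro x
  rw [dif_neg]
  intro h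
  apply hg
  have h2 := Subgroup.Normal.conj_mem (inferInstance : A.Normal) _ h x.out
  have h3 : x.out * (x.out⁻¹ * g * x.out) * x.out⁻¹ = g := by group
  rwa [h3] at h2

theorem indc_mem (φ : A →* ℂˣ) (a : A) :
    indc A φ a = ∑ᶠ x : G ⧸ A, ((cx A x.out φ a : ℂˣ) : ℂ) := by
  unfold indc
  refine finsum_congr fun x => ?_
  rw [dif_pos (nmem A x.out a), cx_apply A x.out φ a (nmem A x.out a)]

theorem indc_one (φ : A →* ℂˣ) : indc A φ 1 = A.index := by
  have h := indc_mem A φ 1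
  rw [Subgroup.coe_one] at h
  rw [h]
  simp only [map_one, Units.val_one]
  rcases finite_or_infinite (G ⧸ A) with hf | hf
  · have := Fintype.ofFinite (G ⧸ A)
    rw [finsum_eq_sum_of_fintype, Finset.sum_const, Finset.card_univ, nsmul_eq_mul, mul_one,
      Subgroup.index, Nat.card_eq_fintype_card]
  · rw [Subgroup.index, Nat.card_eq_zero_of_infinite, Nat.cast_zero]
    rw [finsum_of_infinite_support]
    have h1 : Function.support (fun _ : G ⧸ A => (1 : ℂ)) = Set.univ := by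
      ext x
      simp
    rw [h1]
    exact Set.infinite_univ

/-! ### scalar products -/

theorem conj_hom [Finite A] (φ : A →* ℂˣ) (a : A) :
    conj ((φ a : ℂˣ) : ℂ) = ((φ a⁻¹ : ℂˣ) : ℂ) := by
  have h1 : ((φ a : ℂˣ) : ℂ) ^ (Nat.card A) = 1 := by
    rw [← Units.val_pow_eq_pow_val, ← map_pow, pow_card_eq_one', map_one, Units.val_one]
  have h2 : ‖((φ a : ℂˣ) : ℂ)‖ = 1 :=
    Complex.norm_eq_one_of_pow_eq_one h1 Nat.card_pos.ne'
  rw [map_inv, Units.val_inv_eq_inv_val, Complex.inv_def, Complex.normSq_eq_norm_sq, h2]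
  simp

open Classical in
/-- orthogonality of the characters of `A` -/
theorem sum_hom_mul [Fintype A] (ψ φ : A →* ℂˣ) :
    ∑ a : A, ((ψ a : ℂˣ) : ℂ) * ((φ a⁻¹ : ℂˣ) : ℂ) =
      if ψ = φ then (Nat.card A : ℂ) else 0 := by
  have h1 := sum_hom_units ((Units.coeHom ℂ).comp (ψ * φ⁻¹))
  have h2 : (∑ a : A, ((ψ a : ℂˣ) : ℂ) * ((φ a⁻¹ : ℂˣ) : ℂ)) =
      ∑ a : A, ((Units.coeHom ℂ).comp (ψ * φ⁻¹)) a := by
    refine Finset.sum_congr rfl fun a _ => ?_
    simp
  rw [h2, h1]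
  have h3 : ((Units.coeHom ℂ).comp (ψ * φ⁻¹) = 1) ↔ ψ = φ := by
    constructor
    · intro h
      ext a
      have h4 := DFunLike.congr_fun h a
      simp only [MonoidHom.comp_apply, MonoidHom.mul_apply, MonoidHom.inv_apply,
        Units.coeHom_apply, MonoidHom.one_apply, Units.val_mul, Units.val_inv_eq_inv_val] at h4
      rwa [mul_inv_eq_one₀ (Units.ne_zero _)] at h4
    · rintro rfl
      ext a
      simp
  by_cases h : ψ = φ
  · rw [if_pos h, if_pos (h3.2 h), Nat.card_eq_fintype_card]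
  · rw [if_neg h, if_neg (fun h' => h (h3.1 h'))]
    simp

theorem mlt_eq [Fintype A] (φ : A →* ℂˣ) (f : G → ℂ) :
    mlt A φ f = (Nat.card A : ℂ)⁻¹ * ∑ a : A, f (a : G) * ((φ a⁻¹ : ℂˣ) : ℂ) := by
  unfold mlt
  rw [finsum_eq_sum_of_fintype]

/-- the multiplicity of a conjugate -/
theorem mlt_cx [Finite A] (φ : A →* ℂˣ) (f : G → ℂ) (hf : ∀ g x, f (g * x * g⁻¹) = f x) (x : G) :
    mlt A (cx A x φ) f = mlt A φ f := by
  have := Fintype.ofFinite A
  rw [mlt_eq, mlt_eq]
  congr 1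
  rw [← Equiv.sum_comp (MulAut.conjNormal x : MulAut A).toEquiv]
  refine Finset.sum_congr rfl fun a _ => ?_
  have h1 : (((MulAut.conjNormal x : MulAut A).toEquiv a : A) : G) = x * a * x⁻¹ := by
    simp
  rw [h1, hf]
  congr 2
  rw [cx_apply A x φ _ (nmem A x _)]
  congr 1
  apply Subtype.ext
  have h2 : ((((MulAut.conjNormal x : MulAut A).toEquiv a)⁻¹ : A) : G) = x * (a : G)⁻¹ * x⁻¹ := by
    rw [Subgroup.coe_inv, h1]
    group
  simp only [h2, Subgroup.coe_inv]
  group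

/-- the scalar product with the induced character -/
theorem inner_indc [Fintype G] (φ : A →* ℂˣ) (f : G → ℂ)
    (hf : ∀ g x, f (g * x * g⁻¹) = f x) :
    ∑ g, f g * conj (indc A φ g) = (Nat.card G : ℂ) * mlt A φ f := by
  have := Fintype.ofFinite A
  have := Fintype.ofFinite (G ⧸ A)
  have h1 : ∑ g, f g * conj (indc A φ g) = ∑ a : A, f a * conj (indc A φ a) := by
    classical
    rw [← Finset.sum_subtype (Finset.univ.filter (fun g => g ∈ A)) (by simp)
      (fun g => f g * conj (indc A φ g)), Finset.sum_filter]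
    refine Finset.sum_congr rfl fun g _ => ?_
    by_cases hg : g ∈ A
    · rw [if_pos hg]
    · rw [if_neg hg, indc_not_mem A φ g hg, map_zero, mul_zero]
  have h2 : ∀ a : A, conj (indc A φ a) = ∑ x : G ⧸ A, ((cx A x.out φ a⁻¹ : ℂˣ) : ℂ) := by
    intro a
    rw [indc_mem, finsum_eq_sum_of_fintype, map_sum]
    exact Finset.sum_congr rfl fun x _ => conj_hom A _ a
  have hA0 : (Nat.card A : ℂ) ≠ 0 := Nat.cast_ne_zero.2 Nat.card_pos.ne'
  rw [h1, Finset.sum_congr rfl fun a _ => by rw [h2 a, Finset.mul_sum], Finset.sum_comm]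
  have h3 : ∀ x : G ⧸ A, ∑ a : A, f a * ((cx A x.out φ a⁻¹ : ℂˣ) : ℂ) =
      (Nat.card A : ℂ) * mlt A φ f := by
    intro x
    rw [← mlt_cx A φ f hf x.out, mlt_eq, ← mul_assoc, mul_inv_cancel₀ hA0, one_mul]
  rw [Finset.sum_congr rfl fun x _ => h3 x, Finset.sum_const, Finset.card_univ, nsmul_eq_mul,
    ← mul_assoc]
  congr 1
  rw [← Nat.cast_mul, ← Nat.card_eq_fintype_card]
  congr 1
  exact (Subgroup.card_eq_card_quotient_mul_card_subgroup A).symm

open Classical in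
/-- the multiplicities in an induced character -/
theorem mlt_indc [Finite G] [Fintype (G ⧸ A)] (φ φ' : A →* ℂˣ) :
    mlt A φ (indc A φ') =
      ((Finset.univ.filter fun x : G ⧸ A => cx A x.out φ' = φ).card : ℂ) := by
  have := Fintype.ofFinite A
  have hA0 : (Nat.card A : ℂ) ≠ 0 := Nat.cast_ne_zero.2 Nat.card_pos.ne'
  rw [mlt_eq]
  have h1 : ∀ a : A, indc A φ' a * ((φ a⁻¹ : ℂˣ) : ℂ) =
      ∑ x : G ⧸ A, ((cx A x.out φ' a : ℂˣ) : ℂ) * ((φ a⁻¹ : ℂˣ) : ℂ) := by
    intro a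
    rw [indc_mem, finsum_eq_sum_of_fintype, Finset.sum_mul]
  rw [Finset.sum_congr rfl fun a _ => h1 a, Finset.sum_comm,
    Finset.sum_congr rfl fun x _ => sum_hom_mul A (cx A x.out φ') φ, ← Finset.sum_filter,
    Finset.sum_const, nsmul_eq_mul, mul_comm, mul_assoc, mul_inv_cancel₀ hA0, mul_one]
  refine congrArg Nat.cast (congrArg Finset.card ?_)
  ext x
  simp only [Finset.mem_filter, Finset.mem_univ, true_and]

end Pool.Agent.H22.CA
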